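import Pool.Agent.Lib.MP_6bc78b_nt.MS.QZ.Iface
import Pool.Agent.Lib.MP_6bc78b_nt.HardyOrder

/-! Module DHZ of Part QZ: the derivatives of `Z` and of `ζ` have the same size at a zero. -/

set_option autoImplicit false

open Complex Filter Topology

namespace Pool.Agent.Lib.MP_6bc78b_nt.MS.QZ.H75

open Pool.Agent.Lib.MP_6bc78b_nt Pool.Agent.Lib.MP_6bc78b_nt.MS

theorem dhz : DhzStatement := by
  intro γ h0
  have hZ : HasDerivAt hardyZ (deriv hardyZ γ) γ :=
    (analyticAt_hardyZ γ).differentiableAt.hasDerivAt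
  have hne : (1 / 2 + γ * I : ℂ) ≠ 1 := by
    intro h
    have := congrArg Complex.re h
    simp at this
  have hz0 : riemannZeta (1 / 2 + γ * I) = 0 := by
    have := abs_hardyZ γ
    rw [h0, abs_zero] at this
    exact norm_eq_zero.1 this.symm
  have hline : HasDerivAt (fun x : ℝ => (1 / 2 + x * I : ℂ)) I γ := by
    have h1 : HasDerivAt (fun x : ℝ => ((x : ℝ) : ℂ)) 1 γ := Complex.ofRealCLM.hasDerivAt
    have h2 := (h1.mul_const I).const_add (1 / 2 : ℂ)
    simpa using h2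
  have hζ : HasDerivAt (fun x : ℝ => riemannZeta (1 / 2 + x * I))
      (deriv riemannZeta (1 / 2 + γ * I) * I) γ := by
    have h1 : HasDerivAt riemannZeta (deriv riemannZeta (1 / 2 + γ * I)) (1 / 2 + γ * I) :=
      (differentiableAt_riemannZeta hne).hasDerivAt
    exact HasDerivAt.comp γ h1 hline
  have l1 : Tendsto (fun x : ℝ => |slope hardyZ γ x|) (𝓝[≠] γ) (𝓝 |deriv hardyZ γ|) :=
    (hasDerivAt_iff_tendsto_slope.1 hZ).abs
  have l2 : Tendsto (fun x : ℝ => ‖slope (fun x : ℝ => riemannZeta (1 / 2 + x * I)) γ x‖)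
      (𝓝[≠] γ) (𝓝 ‖deriv riemannZeta (1 / 2 + γ * I) * I‖) :=
    (hasDerivAt_iff_tendsto_slope.1 hζ).norm
  have heq : (fun x : ℝ => |slope hardyZ γ x|) =
      fun x : ℝ => ‖slope (fun x : ℝ => riemannZeta (1 / 2 + x * I)) γ x‖ := by
    funext x
    rw [slope_def_module, slope_def_module, h0, hz0, sub_zero, sub_zero, norm_smul, smul_eq_mul,
      abs_mul, abs_hardyZ, Real.norm_eq_abs]
  rw [heq] at l1
  have := tendsto_nhds_unique l1 l2
  rw [this, norm_mul, norm_I, mul_one]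

end Pool.Agent.Lib.MP_6bc78b_nt.MS.QZ.H75
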